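import Pool.Agent.H82.KT.TC

set_option autoImplicit false

namespace Pool.Agent.H5.KTN

open Pool.Agent.H82.KT

open scoped Classical in
theorem cnt_split (I : Finset ℤ) (h : ℤ → ℝ) (J ω ρ : ℝ) :
    ∑ s ∈ I, ∑ x ∈ I, ∑ a ∈ I, ∑ b ∈ I, ∑ a' ∈ I, ∑ b' ∈ I,
      (if Adm ω J s x a b ∧ Adm ω J s x a' b' ∧ |Ph s x a b - Ph s x a' b'| ≤ 1 / J ^ 2 then
        h s * h x * h a * h b * h a' * h b' else 0) =
    ∑ s ∈ I, ∑ x ∈ I, ∑ a ∈ I, ∑ b ∈ I, ∑ a' ∈ I, ∑ b' ∈ I,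
      (if Pat ω ρ J s x a b a' b' then h s * h x * h a * h b * h a' * h b' else 0) +
    ∑ s ∈ I, ∑ x ∈ I, ∑ a ∈ I, ∑ b ∈ I, ∑ a' ∈ I, ∑ b' ∈ I,
      (if (Adm ω J s x a b ∧ Adm ω J s x a' b' ∧ |Ph s x a b - Ph s x a' b'| ≤ 1 / J ^ 2) ∧
        |(a : ℝ) - a'| ≤ ρ * J then h s * h x * h a * h b * h a' * h b' else 0) := by
  rw [← Finset.sum_add_distrib]
  refine Finset.sum_congr rfl fun s _ => ?_
  rw [← Finset.sum_add_distrib]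
  refine Finset.sum_congr rfl fun x _ => ?_
  rw [← Finset.sum_add_distrib]
  refine Finset.sum_congr rfl fun a _ => ?_
  rw [← Finset.sum_add_distrib]
  refine Finset.sum_congr rfl fun b _ => ?_
  rw [← Finset.sum_add_distrib]
  refine Finset.sum_congr rfl fun a' _ => ?_
  rw [← Finset.sum_add_distrib]
  refine Finset.sum_congr rfl fun b' _ => ?_
  by_cases hA : Adm ω J s x a b ∧ Adm ω J s x a' b' ∧
      |Ph s x a b - Ph s x a' b'| ≤ 1 / J ^ 2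
  · by_cases hn : |(a : ℝ) - a'| ≤ ρ * J
    · have hP : ¬ Pat ω ρ J s x a b a' b' := fun hP => absurd hP.2.2.2 (not_lt.2 hn)
      rw [if_pos hA, if_neg hP, if_pos ⟨hA, hn⟩, zero_add]
    · have hP : Pat ω ρ J s x a b a' b' := ⟨hA.1, hA.2.1, hA.2.2, not_le.1 hn⟩
      rw [if_pos hA, if_pos hP, if_neg (fun hh => hn hh.2), add_zero]
  · have hP : ¬ Pat ω ρ J s x a b a' b' := fun hP => hA ⟨hP.1, hP.2.1, hP.2.2.1⟩
    rw [if_neg hA, if_neg hP, if_neg (fun hh => hA hh.1), add_zero]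

theorem pf_CNT (hCNA : T_CNA) (hCNB : T_CNB) : T_CNT := by
  intro I h J κ ω H hJ hκ hω hω1 hH hbig hdiam hh hsum h16
  have hJ0 : 0 < J := by linarith
  have hH0 : 0 < H := by linarith
  have hH2 : 0 < H ^ 2 := by positivity
  set ρ : ℝ := ω ^ 3 * κ ^ 2 / (216 * H ^ 2) with hρ
  have hρJ : 1 ≤ ρ * J := by
    rw [hρ, div_mul_eq_mul_div, le_div_iff₀ (by positivity)]
    linarith
  obtain ⟨n, hn⟩ : ∃ n : ℝ, n = ∑ u ∈ I, h u := ⟨_, rfl⟩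
  have hκJ : κ * J ≤ n := by rw [hn]; exact hsum
  have hκJ0 : 0 < κ * J := mul_pos hκ hJ0
  have hn0 : 0 < n := lt_of_lt_of_le hκJ0 hκJ
  have hA := hCNA I h J ω n hJ hω hω1 hdiam (fun u hu => (hh u hu).1) hn hn0
    (fun v hv => by rw [hn]; exact h16 v hv)
  have hB := hCNB I h J ω ρ H n hJ hω hω1 (by linarith) hρJ hdiam hh hn
  rw [cnt_split I h J ω ρ] at hA
  have hn6 : (κ * J) ^ 6 ≤ n ^ 6 := pow_le_pow_left₀ hκJ0.le hκJ 6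
  have hn2 : (κ * J) ^ 2 ≤ n ^ 2 := pow_le_pow_left₀ hκJ0.le hκJ 2
  have hB2 : 9 * ρ * J * H ^ 2 * n ^ 4 / ω = 1 / 24 * ω ^ 2 * κ ^ 2 * J * n ^ 4 := by
    rw [hρ]
    field_simp
    ring
  have hB3 : 1 / 24 * ω ^ 2 * κ ^ 2 * J * n ^ 4 ≤ 1 / 24 * ω ^ 2 * n ^ 6 / J := by
    rw [le_div_iff₀ hJ0]
    have h1 : 1 / 24 * ω ^ 2 * κ ^ 2 * J * n ^ 4 * J =
        1 / 24 * ω ^ 2 * n ^ 4 * (κ * J) ^ 2 := by ring
    have h2 : 1 / 24 * ω ^ 2 * n ^ 6 = 1 / 24 * ω ^ 2 * n ^ 4 * n ^ 2 := by ring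
    rw [h1, h2]
    exact mul_le_mul_of_nonneg_left hn2 (by positivity)
  have hC : ω ^ 2 * κ ^ 6 * J ^ 5 / 16 ≤ 1 / 16 * ω ^ 2 * n ^ 6 / J := by
    rw [le_div_iff₀ hJ0]
    have h1 : ω ^ 2 * κ ^ 6 * J ^ 5 / 16 * J = 1 / 16 * ω ^ 2 * (κ * J) ^ 6 := by ring
    rw [h1]
    exact mul_le_mul_of_nonneg_left hn6 (by positivity)
  have hD : 1 / 16 * ω ^ 2 * n ^ 6 / J ≤
      9 / 64 * ω ^ 2 * n ^ 6 / J - 1 / 24 * ω ^ 2 * n ^ 6 / J := by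
    have h0 : 0 ≤ ω ^ 2 * n ^ 6 / J := by positivity
    have h1 : 1 / 16 * ω ^ 2 * n ^ 6 / J = 1 / 16 * (ω ^ 2 * n ^ 6 / J) := by ring
    have h2 : 9 / 64 * ω ^ 2 * n ^ 6 / J = 9 / 64 * (ω ^ 2 * n ^ 6 / J) := by ring
    have h3 : 1 / 24 * ω ^ 2 * n ^ 6 / J = 1 / 24 * (ω ^ 2 * n ^ 6 / J) := by ring
    rw [h1, h2, h3]
    linarith
  rw [hB2] at hB
  linarith

end Pool.Agent.H5.KTN
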